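import Pool.Agent.E8helper61.Mag.Graph

/-!
Translation between walks of chambers and walks of topes: combinatorial lemmas.
-/

namespace H61Mag

open Finsupp

section Lists

variable {α : Type*}

/-- the boundary of a list as a sum over positions -/
theorem bdry_eq_sum (l : List α) :
    bdry l = ∑ i ∈ Finset.range l.length, (-1 : ℤ) ^ i • Finsupp.single (l.eraseIdx i) (1 : ℤ) := by
  induction l with
  | nil => simp [bdry]
  | cons a l ih =>
    rw [bdry, ih, List.length_cons, Finset.sum_range_succ', map_sum, sub_eq_add_neg, add_comm,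
      ← Finset.sum_neg_distrib]
    congr 1
    · apply Finset.sum_congr rfl
      intro i _
      rw [map_smul, consL_single, List.eraseIdx_cons_succ, pow_succ]
      simp
    · simp

theorem chain_erase {R : α → α → Prop} (l : List α) : ∀ (i : ℕ) (a c : α), l[i]? = some a →
    l[i+2]? = some c → R a c → l.IsChain R → (l.eraseIdx (i+1)).IsChain R := by
  induction l with
  | nil => intro i a c h; simp at h
  | cons d l ih =>
    intro i a c ha hc hac hch
    rw [List.eraseIdx_cons_succ]
    cases i with
    | zero =>
      rcases l with _ | ⟨b, _ | ⟨c', t⟩⟩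
      · simp at hc
      · simp at hc
      · simp only [List.getElem?_cons_zero, Option.some.injEq] at ha
        simp at hc
        subst ha hc
        rw [List.eraseIdx_cons_zero, List.isChain_cons_cons]
        rw [List.isChain_cons_cons, List.isChain_cons_cons] at hch
        exact ⟨hac, hch.2.2⟩
    | succ i =>
      rw [List.getElem?_cons_succ] at ha
      have hc' : l[i+2]? = some c := by simpa using hc
      rcases l with _ | ⟨e, l⟩
      · simp at ha
      · rw [List.isChain_cons_cons] at hch
        have h1 := ih i a c ha hc' hac hch.2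
        rw [List.eraseIdx_cons_succ] at h1 ⊢
        rw [List.isChain_cons_cons]
        exact ⟨hch.1, h1⟩

theorem getLast?_erase (l : List α) (i : ℕ) (hi : i + 1 < l.length) :
    (l.eraseIdx i).getLast? = l.getLast? := by
  rw [List.getLast?_eq_getElem?, List.getLast?_eq_getElem?, List.getElem?_eraseIdx,
    List.length_eraseIdx_of_lt (by omega), if_neg (by omega)]
  congr 1
  omega

theorem not_last_erase (l : List α) (x y : α) (i : ℕ) (hi : i < l.length)
    (hch : (x :: l).IsChain (· ≠ ·)) (hl : l.getLast? = some y)
    (he : (l.eraseIdx i).getLast? = some y) : i + 1 < l.length := by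
  by_contra hcon
  have hi' : i + 1 = l.length := by omega
  obtain ⟨s, rfl⟩ := List.getLast?_eq_some_iff.mp hl
  have hs : i = s.length := by simpa using hi'
  have h1 : (s ++ [y]).eraseIdx i = s := by
    rw [hs, List.eraseIdx_append_of_length_le (le_refl _)]
    simp
  rw [h1] at he
  rw [← List.cons_append, List.isChain_append] at hch
  have h2 : (x :: s).getLast? = some y := by
    rw [List.getLast?_cons, he]; rfl
  exact hch.2.2 y (by rw [h2]; rfl) y (by simp) rfl

end Lists

section Cross

variable {ι : Type*}

/-- indicator of the set of coordinates where `a` and `b` differ -/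
def ind (a b : Sg ι) : ι → ℕ := fun i => if a i ≠ b i then 1 else 0

theorem cross_cc (a b : Sg ι) (l : List (Sg ι)) :
    cross (a :: b :: l) = ind a b + cross (b :: l) := rfl

theorem ind_tri (a b c : Sg ι) (i : ι) : ind a c i ≤ ind a b i + ind b c i := by
  unfold ind
  by_cases h1 : a i = b i
  · rw [h1]; simp
  · simp only [ne_eq, h1, not_false_eq_true, if_true]
    split_ifs <;> omega

theorem ind_ne {a b : Sg ι} (h : a ≠ b) : ∃ i, ind a b i = 1 := by
  obtain ⟨i, hi⟩ := Function.ne_iff.mp h
  exact ⟨i, by simp [ind, hi]⟩

theorem ind_self (a : Sg ι) : ind a a = 0 := by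
  funext i; simp [ind]

theorem cross_erase (l : List (Sg ι)) : ∀ (i : ℕ) (a b c : Sg ι), l[i]? = some a →
    l[i+1]? = some b → l[i+2]? = some c →
    cross l + ind a c = cross (l.eraseIdx (i+1)) + (ind a b + ind b c) := by
  induction l with
  | nil => intro i a b c h; simp at h
  | cons d l ih =>
    intro i a b c ha hb hc
    rw [List.eraseIdx_cons_succ]
    cases i with
    | zero =>
      rcases l with _ | ⟨b', _ | ⟨c', t⟩⟩
      · simp at hc
      · simp at hc
      · simp at ha hb hc
        subst ha hb hc
        rw [List.eraseIdx_cons_zero, cross_cc, cross_cc, cross_cc]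
        abel
    | succ i =>
      rw [List.getElem?_cons_succ] at ha
      have hb' : l[i+1]? = some b := by simpa using hb
      have hc' : l[i+2]? = some c := by simpa using hc
      rcases l with _ | ⟨e, l⟩
      · simp at ha
      · have h1 := ih i a b c ha hb' hc'
        rw [List.eraseIdx_cons_succ] at h1 ⊢
        rw [cross_cc, cross_cc, add_assoc, h1, add_assoc]

variable [Fintype ι]

theorem sum_ind (a b : Sg ι) : ∑ i, ind a b i = (sep a b).card := by
  unfold ind sep
  rw [Finset.card_filter]

/-- metric betweenness is pointwise betweenness -/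
theorem btw_iff (a b c : Sg ι) :
    (sep a c).card = (sep a b).card + (sep b c).card ↔ ind a c = ind a b + ind b c := by
  rw [← sum_ind, ← sum_ind, ← sum_ind, ← Finset.sum_add_distrib]
  constructor
  · intro h
    funext i
    have := (Finset.sum_eq_sum_iff_of_le (fun i _ => ind_tri a b c i)).mp h i (Finset.mem_univ _)
    exact this
  · intro h
    apply Finset.sum_congr rfl
    intro i _
    rw [h]; rfl

theorem mem_W_erase {Cov : Set (Sg ι)} {X Y : Sg ι} {m : ι → ℕ} {τ : List (Sg ι)}
    (hτ : τ ∈ W Cov X Y m) {i : ℕ} (hi : i < τ.length) :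
    τ.eraseIdx i ∈ W Cov X Y m ↔ ∃ a b c, (X :: τ)[i]? = some a ∧ (X :: τ)[i+1]? = some b ∧
      (X :: τ)[i+2]? = some c ∧ (sep a c).card = (sep a b).card + (sep b c).card := by
  obtain ⟨h1, h2, h3, h4⟩ := hτ
  constructor
  · rintro ⟨_, _, g3, g4⟩
    have hlt := not_last_erase τ X Y i hi h2 h3 g3
    have ha : (X :: τ)[i]? = some ((X :: τ)[i]'(by simp; omega)) := List.getElem?_eq_getElem _
    have hb : (X :: τ)[i+1]? = some ((X :: τ)[i+1]'(by simp; omega)) := List.getElem?_eq_getElem _
    have hc : (X :: τ)[i+2]? = some ((X :: τ)[i+2]'(by simp; omega)) := List.getElem?_eq_getElem _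
    refine ⟨_, _, _, ha, hb, hc, ?_⟩
    rw [btw_iff]
    have := cross_erase (X :: τ) i _ _ _ ha hb hc
    rw [List.eraseIdx_cons_succ, h4, g4] at this
    exact add_left_cancel this
  · rintro ⟨a, b, c, ha, hb, hc, hbt⟩
    rw [btw_iff] at hbt
    have hlt : i + 1 < τ.length := by
      have := (List.getElem?_eq_some_iff.mp hc).1
      simp at this
      omega
    have hab : a ≠ b := by
      obtain ⟨g1, g2⟩ := List.getElem?_eq_some_iff.mp ha
      obtain ⟨g3, g4⟩ := List.getElem?_eq_some_iff.mp hb
      have := List.isChain_iff_getElem.mp h2 i g3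
      rw [g2, g4] at this
      exact this
    have hac : a ≠ c := by
      rintro rfl
      obtain ⟨j, hj⟩ := ind_ne hab
      have := congrFun hbt j
      rw [ind_self, Pi.add_apply, hj, Pi.zero_apply] at this
      omega
    refine ⟨?_, ?_, ?_, ?_⟩
    · intro s hs
      exact h1 s (List.mem_of_mem_eraseIdx hs)
    · have := chain_erase (X :: τ) i a c ha hc hac h2
      rwa [List.eraseIdx_cons_succ] at this
    · rw [getLast?_erase τ i hlt, h3]
    · have := cross_erase (X :: τ) i _ _ _ ha hb hc
      rw [List.eraseIdx_cons_succ, h4, hbt] at this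
      exact (add_right_cancel this).symm

end Cross

end H61Mag
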