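import Pool.Agent.E8helper73.MagTR.Basic

/-!
Translation of the combinatorial main theorem to magnitude homology of tope graphs.
-/

namespace H61Mag

open Finsupp

section Gen

variable {I M : Type*} [AddCommGroup M] [Module ℤ M]

theorem lin_ext {f g : (I →₀ ℤ) →ₗ[ℤ] M} {S : Set I}
    (h : ∀ i ∈ S, f (Finsupp.single i 1) = g (Finsupp.single i 1)) {c : I →₀ ℤ}
    (hc : In S c) : f c = g c := by
  have h1 : c = c.sum (fun i n => n • Finsupp.single i (1:ℤ)) := by
    conv_lhs => rw [← Finsupp.sum_single c]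
    apply Finsupp.sum_congr
    intro i _
    simp
  conv_lhs => rw [h1]
  conv_rhs => rw [h1]
  rw [Finsupp.sum, map_sum, map_sum]
  apply Finset.sum_congr rfl
  intro i hi
  have hiS : i ∈ S := by
    by_contra hn
    exact (Finsupp.mem_support_iff.mp hi) (hc i hn)
  rw [LinearMap.map_smul, LinearMap.map_smul, h i hiS]

theorem In_of_supported {S : Set I} {c : I →₀ ℤ} :
    In S c ↔ c ∈ Finsupp.supported ℤ ℤ S := by
  rw [Finsupp.mem_supported']
  exact Iff.rfl

open Classical in
theorem P_single (S : Set I) (i : I) (n : ℤ) :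
    P S (Finsupp.single i n) = if i ∈ S then Finsupp.single i n else 0 := by
  split_ifs with h
  · exact P_of_In (In_single h n)
  · ext j
    rw [P_apply]
    split_ifs with hj
    · rw [Finsupp.single_apply, if_neg]
      · rfl
      · rintro rfl; exact h hj
    · rfl

theorem univ_In (c : I →₀ ℤ) : In (Set.univ) c := fun i hi => absurd (Set.mem_univ i) hi

end Gen

section Trans

variable {V ι : Type*} [Fintype ι] (G : SimpleGraph V) (χ : V → Sg ι)

theorem len_eq (hd : ∀ a b, G.dist a b = (sep (χ a) (χ b)).card) (l : List V) :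
    len G l = ∑ i, cross (l.map χ) i := by
  induction l with
  | nil => simp [len, cross]
  | cons a l ih =>
    cases l with
    | nil => simp [len, cross]
    | cons b l =>
      rw [len, ih, hd, ← sum_ind, ← Finset.sum_add_distrib]
      rfl

/-- invariants of a list preserved by the differential -/
def th (l : List V) : Option V × Option V × (ι → ℕ) := (l.head?, l.getLast?, cross (l.map χ))

theorem face_zero (l : List V) : face G 0 l = 0 := by
  unfold face
  rw [if_neg]
  rintro ⟨h, -⟩
  exact absurd h (lt_irrefl 0)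

open Classical in
theorem face_succ (i : ℕ) (l : List V) : face G (i+1) l =
    if ∃ a b c, l[i]? = some a ∧ l[i+1]? = some b ∧ l[i+2]? = some c ∧
      G.dist a c = G.dist a b + G.dist b c then Finsupp.single (l.eraseIdx (i+1)) 1 else 0 := by
  unfold face
  have : (0 < i + 1 ∧ ∃ a b c, l[i+1-1]? = some a ∧ l[i+1]? = some b ∧ l[i+1+1]? = some c ∧
      G.dist a c = G.dist a b + G.dist b c) ↔ (∃ a b c, l[i]? = some a ∧ l[i+1]? = some b ∧
      l[i+2]? = some c ∧ G.dist a c = G.dist a b + G.dist b c) := by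
    simp
  by_cases h : (∃ a b c, l[i]? = some a ∧ l[i+1]? = some b ∧
      l[i+2]? = some c ∧ G.dist a c = G.dist a b + G.dist b c)
  · rw [if_pos h, if_pos (this.mpr h)]
  · rw [if_neg h, if_neg (fun h' => h (this.mp h'))]

theorem bd_single (l : List V) : bd G (Finsupp.single l 1) =
    ∑ i ∈ Finset.range l.length, (-1 : ℤ) ^ i • face G i l := by
  simp [bd]

theorem th_erase (hd : ∀ a b, G.dist a b = (sep (χ a) (χ b)).card) (l : List V) (i : ℕ)
    {a b c : V} (ha : l[i]? = some a) (hb : l[i+1]? = some b) (hc : l[i+2]? = some c)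
    (h : G.dist a c = G.dist a b + G.dist b c) : th χ (l.eraseIdx (i+1)) = th χ l := by
  unfold th
  refine Prod.ext ?_ (Prod.ext ?_ ?_)
  · show (l.eraseIdx (i+1)).head? = l.head?
    cases l with
    | nil => rfl
    | cons d l => rw [List.eraseIdx_cons_succ]; rfl
  · show (l.eraseIdx (i+1)).getLast? = l.getLast?
    apply getLast?_erase
    exact (List.getElem?_eq_some_iff.mp hc).1
  · show cross ((l.eraseIdx (i+1)).map χ) = cross (l.map χ)
    rw [hd, hd, hd, btw_iff] at h
    have := cross_erase (l.map χ) i (χ a) (χ b) (χ c) (by simp [ha]) (by simp [hb])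
      (by simp [hc])
    rw [List.eraseIdx_map, h] at this
    exact (add_right_cancel this).symm

theorem bd_th (hd : ∀ a b, G.dist a b = (sep (χ a) (χ b)).card) (l l' : List V)
    (h : bd G (Finsupp.single l 1) l' ≠ 0) : th χ l' = th χ l := by
  classical
  rw [bd_single, Finsupp.finsetSum_apply] at h
  obtain ⟨i, -, hi⟩ := Finset.exists_ne_zero_of_sum_ne_zero h
  cases i with
  | zero => rw [face_zero] at hi; simp at hi
  | succ i =>
    rw [face_succ] at hi
    split_ifs at hi with hc
    · obtain ⟨a, b, c, ha, hb, hc, hs⟩ := hc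
      have : l' = l.eraseIdx (i+1) := by
        by_contra hne
        rw [Finsupp.smul_apply, Finsupp.single_apply, if_neg (fun h => hne h.symm)] at hi
        simp at hi
      rw [this]
      exact th_erase G χ hd l i ha hb hc hs
    · simp at hi

/-- the differential commutes with the projection to a block -/
theorem bd_P (hd : ∀ a b, G.dist a b = (sep (χ a) (χ b)).card)
    (q : Option V × Option V × (ι → ℕ)) (c : List V →₀ ℤ) :
    bd G (P {l | th χ l = q} c) = P {l | th χ l = q} (bd G c) := by
  classical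
  have := lin_ext (f := (bd G).comp (P {l | th χ l = q})) (g := (P {l | th χ l = q}).comp (bd G))
    (S := Set.univ) (fun l _ => ?_) (univ_In c)
  · exact this
  · rw [LinearMap.comp_apply, LinearMap.comp_apply, P_single]
    split_ifs with hl
    · symm
      apply P_of_In
      intro l' hl'
      by_contra hne
      exact hl' ((bd_th G χ hd l l' hne).trans hl)
    · rw [map_zero]
      ext l'
      rw [P_apply]
      split_ifs with hl'
      · by_contra hne
        exact hl ((bd_th G χ hd l l' (fun h => hne h.symm)).symm.trans hl')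
      · rfl

/-- from walks of topes to walks of chambers -/
noncomputable def Phi (g : Sg ι → V) (x : V) : (List (Sg ι) →₀ ℤ) →ₗ[ℤ] (List V →₀ ℤ) :=
  Finsupp.lmapDomain ℤ ℤ (fun τ => x :: τ.map g)

/-- from walks of chambers to walks of topes -/
noncomputable def Psi : (List V →₀ ℤ) →ₗ[ℤ] (List (Sg ι) →₀ ℤ) :=
  Finsupp.lmapDomain ℤ ℤ (fun l => l.tail.map χ)

@[simp] theorem Phi_single (g : Sg ι → V) (x : V) (τ : List (Sg ι)) (n : ℤ) :
    Phi g x (Finsupp.single τ n) = Finsupp.single (x :: τ.map g) n := by simp [Phi]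

@[simp] theorem Psi_single (l : List V) (n : ℤ) :
    Psi χ (Finsupp.single l n) = Finsupp.single (l.tail.map χ) n := by simp [Psi]

theorem Phi_apply_ne {g : Sg ι → V} {x : V} {c : List (Sg ι) →₀ ℤ} {l : List V}
    (h : Phi g x c l ≠ 0) : ∃ τ, c τ ≠ 0 ∧ l = x :: τ.map g := by
  classical
  have h1 : l ∈ (Phi g x c).support := Finsupp.mem_support_iff.mpr h
  have h3 := Finsupp.mapDomain_support (f := fun τ : List (Sg ι) => x :: τ.map g) (s := c)
    (by simpa [Phi] using h1)
  rw [Finset.mem_image] at h3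
  obtain ⟨τ, h4, h5⟩ := h3
  exact ⟨τ, Finsupp.mem_support_iff.mp h4, h5.symm⟩

theorem Psi_apply_ne {c : List V →₀ ℤ} {τ : List (Sg ι)}
    (h : Psi χ c τ ≠ 0) : ∃ l, c l ≠ 0 ∧ τ = l.tail.map χ := by
  classical
  have h1 : τ ∈ (Psi χ c).support := Finsupp.mem_support_iff.mpr h
  have h3 := Finsupp.mapDomain_support (f := fun l : List V => l.tail.map χ) (s := c)
    (by simpa [Psi] using h1)
  rw [Finset.mem_image] at h3
  obtain ⟨l, h4, h5⟩ := h3
  exact ⟨l, Finsupp.mem_support_iff.mp h4, h5.symm⟩

variable {χ}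

theorem map_map_tope {g : Sg ι → V} {T : Set (Sg ι)} (hg : ∀ s ∈ T, χ (g s) = s)
    {τ : List (Sg ι)} (h : ∀ a ∈ τ, a ∈ T) : (τ.map g).map χ = τ := by
  rw [List.map_map]
  conv_rhs => rw [← List.map_id τ]
  apply List.map_congr_left
  intro a ha
  exact hg a (h a ha)

theorem bd_Phi_single (hd : ∀ a b, G.dist a b = (sep (χ a) (χ b)).card) {Cov : Set (Sg ι)}
    {g : Sg ι → V} (hg : ∀ s ∈ Tp Cov, χ (g s) = s) (x : V) (Y : Sg ι) (m : ι → ℕ)
    {τ : List (Sg ι)} (hτ : τ ∈ W Cov (χ x) Y m) :
    bd G (Finsupp.single (x :: τ.map g) 1) = -(Phi g x (P (W Cov (χ x) Y m) (bdry τ))) := by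
  classical
  rw [bd_single, bdry_eq_sum, map_sum, map_sum, List.length_cons, List.length_map,
    Finset.sum_range_succ', face_zero, smul_zero, add_zero, ← Finset.sum_neg_distrib]
  apply Finset.sum_congr rfl
  intro i hi
  rw [Finset.mem_range] at hi
  rw [map_smul, map_smul, face_succ, P_single, pow_succ, mul_neg_one, neg_smul]
  congr 2
  have hl : χ x :: τ = (x :: τ.map g).map χ := by
    rw [List.map_cons, map_map_tope hg hτ.1]
  have hiff : (∃ a b c, (x :: τ.map g)[i]? = some a ∧ (x :: τ.map g)[i+1]? = some b ∧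
      (x :: τ.map g)[i+2]? = some c ∧ G.dist a c = G.dist a b + G.dist b c) ↔
      τ.eraseIdx i ∈ W Cov (χ x) Y m := by
    rw [mem_W_erase hτ hi, hl]
    constructor
    · rintro ⟨a, b, c, ha, hb, hc, h⟩
      rw [hd, hd, hd] at h
      refine ⟨χ a, χ b, χ c, ?_, ?_, ?_, h⟩
      · rw [List.getElem?_map, ha]; rfl
      · rw [List.getElem?_map, hb]; rfl
      · rw [List.getElem?_map, hc]; rfl
    · rintro ⟨a, b, c, ha, hb, hc, h⟩
      rw [List.getElem?_map, Option.map_eq_some_iff] at ha hb hc
      obtain ⟨a', ha', rfl⟩ := ha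
      obtain ⟨b', hb', rfl⟩ := hb
      obtain ⟨c', hc', rfl⟩ := hc
      refine ⟨a', b', c', ha', hb', hc', ?_⟩
      rw [hd, hd, hd]
      exact h
  by_cases h : τ.eraseIdx i ∈ W Cov (χ x) Y m
  · rw [if_pos (hiff.mpr h), if_pos h, Phi_single, List.eraseIdx_cons_succ, List.eraseIdx_map]
  · rw [if_neg (fun h' => h (hiff.mp h')), if_neg h, map_zero]

theorem bd_Phi (hd : ∀ a b, G.dist a b = (sep (χ a) (χ b)).card) {Cov : Set (Sg ι)}
    {g : Sg ι → V} (hg : ∀ s ∈ Tp Cov, χ (g s) = s) (x : V) (Y : Sg ι) (m : ι → ℕ)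
    {c : List (Sg ι) →₀ ℤ} (hc : In (W Cov (χ x) Y m) c) :
    bd G (Phi g x c) = -(Phi g x (P (W Cov (χ x) Y m) (Dl c))) := by
  have := lin_ext (f := (bd G).comp (Phi g x))
    (g := -((Phi g x).comp ((P (W Cov (χ x) Y m)).comp Dl)))
    (S := W Cov (χ x) Y m) (fun τ hτ => ?_) hc
  · exact this
  · simp only [LinearMap.comp_apply, LinearMap.neg_apply, Phi_single, Dl_single, one_smul]
    exact bd_Phi_single G hd hg x Y m hτ

theorem Psi_Phi {Cov : Set (Sg ι)}
    {g : Sg ι → V} (hg : ∀ s ∈ Tp Cov, χ (g s) = s) (x : V) (X Y : Sg ι) (m : ι → ℕ)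
    {c : List (Sg ι) →₀ ℤ} (hc : In (W Cov X Y m) c) : Psi χ (Phi g x c) = c := by
  have := lin_ext (f := (Psi χ).comp (Phi g x)) (g := LinearMap.id)
    (S := W Cov X Y m) (fun τ hτ => ?_) hc
  · exact this
  · simp only [LinearMap.comp_apply, LinearMap.id_apply, Phi_single, Psi_single, List.tail_cons]
    rw [map_map_tope hg hτ.1]

theorem Phi_Psi {g : Sg ι → V} (hg : ∀ v, g (χ v) = v) (x : V)
    {c : List V →₀ ℤ} (hc : In {l | l.head? = some x} c) : Phi g x (Psi χ c) = c := by
  have := lin_ext (f := (Phi g x).comp (Psi χ)) (g := LinearMap.id)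
    (S := {l | l.head? = some x}) (fun l hl => ?_) hc
  · exact this
  · simp only [LinearMap.comp_apply, LinearMap.id_apply, Phi_single, Psi_single]
    have hmap : (l.tail.map χ).map g = l.tail := by
      rw [List.map_map]
      conv_rhs => rw [← List.map_id l.tail]
      apply List.map_congr_left
      intro a _
      exact hg a
    rw [hmap]
    congr 1
    cases l with
    | nil => simp at hl
    | cons a l => simp at hl; subst hl; rfl

/-- truncation by length -/
theorem trunc (S : Set (List (Sg ι))) (k : ℕ) (c : List (Sg ι) →₀ ℤ) :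
    P S (Dl (P {τ | τ.length = k + 1} c)) = P {τ | τ.length = k} (P S (Dl c)) := by
  classical
  have := lin_ext (f := (P S).comp (Dl.comp (P {τ : List (Sg ι) | τ.length = k + 1})))
    (g := (P {τ : List (Sg ι) | τ.length = k}).comp ((P S).comp Dl))
    (S := Set.univ) (fun τ _ => ?_) (univ_In c)
  · exact this
  · simp only [LinearMap.comp_apply]
    rw [P_single]
    split_ifs with hl
    · symm
      apply P_of_In
      intro l' hl'
      rw [P_apply]
      split_ifs with hS
      · by_contra hne
        have := (Del_of_Dl_ne hne).length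
        apply hl'
        show l'.length = k
        have h3 : τ.length = k + 1 := hl
        omega
      · rfl
    · rw [map_zero, map_zero]
      ext l'
      rw [P_apply, P_apply]
      split_ifs with h1 h2
      · by_contra hne
        have := (Del_of_Dl_ne (fun h => hne h.symm)).length
        apply hl
        show τ.length = k + 1
        have h3 : l'.length = k := h1
        omega
      · rfl
      · rfl

theorem chains_iff {k ℓ : ℕ} {c : List V →₀ ℤ} : c ∈ chains G k ℓ ↔
    ∀ l, c l ≠ 0 → l.length = k + 1 ∧ l.IsChain (· ≠ ·) ∧ len G l = ℓ := by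
  rw [chains, Finsupp.mem_supported']
  constructor
  · intro h l hl
    by_contra hcon
    exact hl (h l hcon)
  · intro h l hl
    by_contra hcon
    exact hl (h l hcon)

/-- one block -/
theorem core (hd : ∀ a b, G.dist a b = (sep (χ a) (χ b)).card) {Cov : Set (Sg ι)}
    (hT : ∀ v, χ v ∈ Tp Cov) {g : Sg ι → V} (hg : ∀ s ∈ Tp Cov, χ (g s) = s)
    (hg' : ∀ v, g (χ v) = v) (x y : V) (m : ι → ℕ) (hTf : Tf Dl (W Cov (χ x) (χ y) m))
    {k ℓ : ℕ} (hk : 1 ≤ k) {c b : List V →₀ ℤ}
    (hc : In {l | th χ l = (some x, some y, m)} c) (hck : c ∈ chains G k ℓ)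
    (hb : In {l | th χ l = (some x, some y, m)} b) (hbk : b ∈ chains G (k+1) ℓ)
    (hz : bd G c = 0) {n : ℤ} (hn : n ≠ 0) (hnb : bd G b = n • c) :
    ∃ b' ∈ chains G (k+1) ℓ, bd G b' = c := by
  classical
  by_cases hc0 : c = 0
  · exact ⟨0, Submodule.zero_mem _, by rw [hc0, map_zero]⟩
  rw [chains_iff] at hck hbk
  set S := W Cov (χ x) (χ y) m with hS
  -- the sum of m
  have hm : ∑ i, m i = ℓ := by
    obtain ⟨l, hl⟩ := Finsupp.ne_iff.mp hc0
    rw [Finsupp.coe_zero, Pi.zero_apply] at hl
    have h1 := (hck l hl).2.2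
    have h2 : th χ l = (some x, some y, m) := by
      by_contra hcon; exact hl (hc l hcon)
    rw [len_eq G χ hd] at h1
    have h3 : cross (l.map χ) = m := congrArg (fun q => q.2.2) h2
    rw [← h1, h3]
  -- membership in W
  have hmemW : ∀ l : List V, th χ l = (some x, some y, m) → 2 ≤ l.length →
      l.IsChain (· ≠ ·) → l.tail.map χ ∈ S := by
    intro l hl hlen hch
    have e1 : l.head? = some x := congrArg (fun q => q.1) hl
    have e2 : l.getLast? = some y := congrArg (fun q => q.2.1) hl
    have e3 : cross (l.map χ) = m := congrArg (fun q => q.2.2) hl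
    cases l with
    | nil => simp at e1
    | cons a t =>
      simp at e1
      subst e1
      rw [List.tail_cons]
      have hinj : Function.Injective χ := Function.LeftInverse.injective hg'
      refine ⟨?_, ?_, ?_, ?_⟩
      · intro s hs
        obtain ⟨v, -, rfl⟩ := List.mem_map.mp hs
        exact hT v
      · rw [← List.map_cons, List.isChain_map]
        exact hch.imp (fun a b hab h => hab (hinj h))
      · rw [List.getLast?_map]
        cases t with
        | nil => simp at hlen
        | cons b t =>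
          rw [List.getLast?_cons_cons] at e2
          rw [e2]; rfl
      · rw [← List.map_cons]; exact e3
  have hhead : ∀ e : List V →₀ ℤ, In {l | th χ l = (some x, some y, m)} e →
      In {l : List V | l.head? = some x} e := by
    intro e he
    refine he.mono ?_
    intro l hl
    exact congrArg (fun q => q.1) hl
  have InPsi : ∀ e : List V →₀ ℤ, ∀ k', 1 ≤ k' →
      In {l | th χ l = (some x, some y, m)} e →
      (∀ l, e l ≠ 0 → l.length = k' + 1 ∧ l.IsChain (· ≠ ·) ∧ len G l = ℓ) → In S (Psi χ e) := by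
    intro e k' hk' he hek τ hτ
    by_contra hne
    obtain ⟨l, hl, rfl⟩ := Psi_apply_ne χ hne
    have h1 := hek l hl
    have h2 : th χ l = (some x, some y, m) := by
      by_contra hcon; exact hl (he l hcon)
    exact hτ (hmemW l h2 (by omega) h1.2.1)
  have hc1 := InPsi c k hk hc hck
  have hb1 := InPsi b (k+1) (by omega) hb hbk
  have ec := Phi_Psi hg' x (hhead c hc)
  have eb := Phi_Psi hg' x (hhead b hb)
  set c0 := Psi χ c with hc0'
  set b0 := Psi χ b with hb0'
  have inj : ∀ e e', In S e → In S e' → Phi g x e = Phi g x e' → e = e' := by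
    intro e e' he he' h
    rw [← Psi_Phi hg x (χ x) (χ y) m he, ← Psi_Phi hg x (χ x) (χ y) m he', h]
  have z0 : P S (Dl c0) = 0 := by
    apply inj _ _ (In_P _ _) (In_zero _)
    have := bd_Phi G hd hg x (χ y) m hc1
    rw [ec, hz] at this
    rw [map_zero]
    exact (neg_eq_zero.mp this.symm)
  have n0 : P S (Dl (-b0)) = n • c0 := by
    apply inj _ _ (In_P _ _) (hc1.smul n)
    have := bd_Phi G hd hg x (χ y) m hb1
    rw [eb, hnb] at this
    rw [map_neg, map_neg, map_neg, ← this, map_smul, ec]
  obtain ⟨b', hb', hbc'⟩ := hTf c0 hc1 z0 n hn (-b0) hb1.neg n0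
  -- truncate
  set b1 := P {τ : List (Sg ι) | τ.length = k + 1} b' with hb1'
  have hb1S : In S b1 := by
    intro τ hτ
    rw [hb1', P_apply, hb' τ hτ]
    simp
  have hlen0 : In {τ : List (Sg ι) | τ.length = k} c0 := by
    intro τ hτ
    by_contra hne
    obtain ⟨l, hl, rfl⟩ := Psi_apply_ne χ hne
    have h1 := (hck l hl).1
    apply hτ
    show (l.tail.map χ).length = k
    rw [List.length_map, List.length_tail]
    omega
  have ht : P S (Dl b1) = c0 := by
    rw [hb1', trunc, hbc', P_of_In hlen0]
  refine ⟨-(Phi g x b1), ?_, ?_⟩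
  · rw [chains_iff]
    intro l hl
    rw [Finsupp.neg_apply, neg_ne_zero] at hl
    obtain ⟨τ, hτ, rfl⟩ := Phi_apply_ne hl
    have hτS : τ ∈ S := by
      by_contra hcon; exact hτ (hb1S τ hcon)
    have hτl : τ.length = k + 1 := by
      by_contra hcon
      apply hτ
      rw [hb1', P_apply, if_neg (show τ ∉ {τ : List (Sg ι) | τ.length = k + 1} from hcon)]
    have hmap : (x :: τ.map g).map χ = χ x :: τ := by
      rw [List.map_cons, map_map_tope hg hτS.1]
    refine ⟨by simp [hτl], ?_, ?_⟩
    · have h1 := hτS.2.1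
      rw [← hmap, List.isChain_map] at h1
      exact h1.imp (fun a b hab h => hab (congrArg χ h))
    · rw [len_eq G χ hd, hmap, hτS.2.2.2, hm]
  · rw [map_neg, bd_Phi G hd hg x (χ y) m hb1S, neg_neg, ht, ec]

/-- all blocks -/
theorem total (hd : ∀ a b, G.dist a b = (sep (χ a) (χ b)).card) {Cov : Set (Sg ι)}
    (hT : ∀ v, χ v ∈ Tp Cov) {g : Sg ι → V} (hg : ∀ s ∈ Tp Cov, χ (g s) = s)
    (hg' : ∀ v, g (χ v) = v) (hTf : ∀ (x y : V) (m : ι → ℕ), Tf Dl (W Cov (χ x) (χ y) m))
    {k ℓ : ℕ} {c b : List V →₀ ℤ}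
    (hck : c ∈ chains G k ℓ) (hbk : b ∈ chains G (k+1) ℓ)
    (hz : bd G c = 0) {n : ℤ} (hn : n ≠ 0) (hnb : bd G b = n • c) :
    ∃ b' ∈ chains G (k+1) ℓ, bd G b' = c := by
  classical
  rcases Nat.eq_zero_or_pos k with hk | hk
  · -- k = 0
    subst hk
    have h0 : bd G b = 0 := by
      have := lin_ext (f := bd G) (g := 0) (S := {l : List V | l.length = 2}) (c := b)
        (fun l hl => ?_) (fun l hl => ?_)
      · simpa using this
      · have hl' : l.length = 2 := hl
        rw [bd_single, hl', Finset.sum_range_succ, Finset.sum_range_one, face_zero, face_succ,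
          if_neg]
        · simp
        · rintro ⟨a, b, c, -, -, hc, -⟩
          have := (List.getElem?_eq_some_iff.mp hc).1
          omega
      · by_contra hne
        exact hl (((chains_iff G).mp hbk l hne).1)
    rw [h0] at hnb
    have hc : c = 0 := by
      ext l
      have := congrArg (fun f => f l) hnb
      simp only [Finsupp.coe_zero, Pi.zero_apply, Finsupp.smul_apply, smul_eq_mul] at this
      rcases mul_eq_zero.mp this.symm with h | h
      · exact absurd h hn
      · simpa using h
    exact ⟨0, Submodule.zero_mem _, by rw [hc, map_zero]⟩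
  · have hPchains : ∀ (k' : ℕ) (e : List V →₀ ℤ) (q), e ∈ chains G k' ℓ →
        P {l | th χ l = q} e ∈ chains G k' ℓ := by
      intro k' e q he
      rw [chains_iff] at he ⊢
      intro l hl
      apply he
      intro h0
      apply hl
      rw [P_apply, h0]; simp
    have hex : ∀ q : Option V × Option V × (ι → ℕ), ∃ b' ∈ chains G (k+1) ℓ,
        bd G b' = P {l | th χ l = q} c := by
      intro q
      by_cases h0 : P {l | th χ l = q} c = 0
      · exact ⟨0, Submodule.zero_mem _, by rw [h0, map_zero]⟩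
      obtain ⟨l, hl⟩ := Finsupp.ne_iff.mp h0
      rw [Finsupp.coe_zero, Pi.zero_apply] at hl
      have hlq : th χ l = q := by
        by_contra hcon
        apply hl
        rw [P_apply, if_neg (show l ∉ {l | th χ l = q} from hcon)]
      have hlen := ((chains_iff G).mp (hPchains k c q hck) l hl).1
      have hne : l ≠ [] := by rintro rfl; simp at hlen
      obtain ⟨x, hx⟩ : ∃ x, l.head? = some x := by
        cases l with
        | nil => exact absurd rfl hne
        | cons a t => exact ⟨a, rfl⟩
      obtain ⟨y, hy⟩ : ∃ y, l.getLast? = some y :=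
        ⟨l.getLast hne, List.getLast?_eq_some_getLast hne⟩
      have hq : q = (some x, some y, cross (l.map χ)) := by
        rw [← hlq]; unfold th; rw [hx, hy]
      subst hq
      refine core G hd hT hg hg' x y _ (hTf x y _) hk (In_P _ _) (hPchains k c _ hck)
        (In_P _ _) (hPchains (k+1) b _ hbk) ?_ hn ?_
      · rw [bd_P G χ hd, hz, map_zero]
      · rw [bd_P G χ hd, hnb, map_smul]
    choose bq hbq hbqc using hex
    refine ⟨∑ q ∈ c.support.image (th χ), bq q, Submodule.sum_mem _ (fun q _ => hbq q), ?_⟩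
    rw [map_sum]
    ext l
    rw [Finsupp.finsetSum_apply]
    simp only [hbqc, P_apply]
    by_cases hl : c l = 0
    · rw [hl]; simp
    · rw [Finset.sum_eq_single (th χ l)]
      · simp
      · intro q _ hne
        rw [if_neg (show l ∉ {l | th χ l = q} from fun h => hne h.symm)]
      · intro h
        exact absurd (Finset.mem_image_of_mem _ (Finsupp.mem_support_iff.mpr hl)) h

end Trans

theorem t_TR : S_TR := by
  intro hC1 hC2 hMain d A k ℓ n h hn hnh
  classical
  obtain ⟨f, χ, hinj, hrange, hdist⟩ := hC2 d A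
  have hOM := hC1 A.planes (Fin d → ℝ) f
  set Cov : Set (Sg A.planes) := Set.range (sgn f) with hCov
  have hT : ∀ v, χ v ∈ Tp Cov := fun v => (hrange (χ v)).mp ⟨v, rfl⟩
  obtain ⟨⟨c, hc⟩, rfl⟩ := Submodule.Quotient.mk_surjective _ h
  rw [← Submodule.Quotient.mk_smul, Submodule.Quotient.mk_eq_zero, Submodule.mem_comap] at hnh
  rw [Submodule.Quotient.mk_eq_zero, Submodule.mem_comap]
  have hcz := Submodule.mem_inf.mp hc
  have hmem : n • c ∈ boundaries A.topeGraph k ℓ := hnh
  show c ∈ boundaries A.topeGraph k ℓ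
  rw [boundaries, Submodule.mem_map] at hmem ⊢
  obtain ⟨b, hb, hbc⟩ := hmem
  by_cases hne : Nonempty A.Chamber
  · obtain ⟨b', hb', hbc'⟩ := total A.topeGraph (χ := χ) hdist (Cov := Cov) hT
      (g := Function.invFun χ) (fun s hs => Function.invFun_eq ((hrange s).mpr hs))
      (fun v => Function.leftInverse_invFun hinj v)
      (fun x y m => hMain A.planes Cov hOM (χ x) (hT x) (χ y) (hT y) m)
      hcz.1 hb (LinearMap.mem_ker.mp hcz.2) hn hbc
    exact ⟨b', hb', hbc'⟩
  · -- no chambers: no nonempty lists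
    refine ⟨0, Submodule.zero_mem _, ?_⟩
    rw [map_zero]
    ext l
    by_contra hcl
    have h1 := (chains_iff A.topeGraph).mp hcz.1 l (fun h0 => hcl (by simp [h0]))
    cases l with
    | nil => simp at h1
    | cons a t => exact hne ⟨a⟩

end H61Mag
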